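import Mathlib

set_option autoImplicit false

namespace Pool.Agent.Results.MP_bd7f44_an.NonConvex

open Set Real

/-- Euclidean space -/
abbrev E (n : ℕ) : Type := EuclideanSpace ℝ (Fin n)

/-- the Bregman distance of a finite differentiable function -/
noncomputable def D {n : ℕ} (f : E n → ℝ) (x y : E n) : ℝ :=
  f x - f y - inner ℝ (gradient f y) (x - y)

/-- left Chebyshev sets -/
def LeftChebyshev {n : ℕ} (f : E n → ℝ) (C : Set (E n)) : Prop :=
  ∀ y : E n, ∃! x : E n, x ∈ C ∧ ∀ z ∈ C, D f x y ≤ D f z y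

noncomputable def f (x : E 2) : ℝ := x 0 ^ 2 + exp (x 1)

noncomputable def γ (s : ℝ) : E 2 := !₂[s, log s]

lemma deriv_f (y : E 2) : HasFDerivAt f
    ((2 * y 0) • EuclideanSpace.proj (𝕜 := ℝ) (0 : Fin 2) +
      exp (y 1) • EuclideanSpace.proj (𝕜 := ℝ) (1 : Fin 2)) y := by
  have h0 := (EuclideanSpace.proj (𝕜 := ℝ) (0 : Fin 2)).hasFDerivAt (x := y)
  have h1 := (EuclideanSpace.proj (𝕜 := ℝ) (1 : Fin 2)).hasFDerivAt (x := y)
  refine ((h0.pow 2).add h1.exp).congr_fderiv ?_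
  simp

lemma D_eq (s : ℝ) (hs : 0 < s) (y : E 2) : D f (γ s) y =
    s ^ 2 + s - f y - (2 * y 0 * (s - y 0) + exp (y 1) * (log s - y 1)) := by
  rw [D, gradient, InnerProductSpace.toDual_symm_apply, (deriv_f y).fderiv]
  simp [f, γ, exp_log hs]

lemma strict : StrictConvexOn ℝ univ f := by
  refine ⟨convex_univ, fun x _ y _ hxy a b ha hb hab => ?_⟩
  have e0 : (a • x + b • y) 0 = a * x 0 + b * y 0 := by simp
  have e1 : (a • x + b • y) 1 = a * x 1 + b * y 1 := by simp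
  have h0 : (a * x 0 + b * y 0) ^ 2 = a * x 0 ^ 2 + b * y 0 ^ 2 - a * b * (x 0 - y 0) ^ 2 := by
    obtain rfl : b = 1 - a := by linarith
    ring
  simp only [f, e0, e1, smul_eq_mul]
  by_cases h : x 1 = y 1
  · have h1 : x 0 ≠ y 0 := fun h1 => hxy (by
      ext i
      fin_cases i
      exacts [h1, h])
    have h2 := mul_pos (mul_pos ha hb) (sq_pos_of_ne_zero (sub_ne_zero.2 h1))
    have h3 := convexOn_exp.2 (mem_univ (x 1)) (mem_univ (y 1)) ha.le hb.le hab
    simp only [smul_eq_mul] at h3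
    linarith
  · have h2 := mul_nonneg (mul_pos ha hb).le (sq_nonneg (x 0 - y 0))
    have h3 := strictConvexOn_exp.2 (mem_univ (x 1)) (mem_univ (y 1)) h ha hb hab
    simp only [smul_eq_mul] at h3
    linarith

/-- A compact left Chebyshev set that is not convex. -/
theorem result : ∃ (n : ℕ) (f : E n → ℝ) (C : Set (E n)), Differentiable ℝ f ∧
    StrictConvexOn ℝ univ f ∧ C.Nonempty ∧ IsCompact C ∧ LeftChebyshev f C ∧ ¬ Convex ℝ C := by
  have hc : ContinuousOn γ (Icc 1 2) := by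
    refine (PiLp.continuous_toLp 2 _).comp_continuousOn (continuousOn_pi.2 fun i => ?_)
    fin_cases i
    · exact continuousOn_id
    · exact continuousOn_log.mono fun s hs => ne_of_gt (zero_lt_one.trans_le hs.1)
  have hK := isCompact_Icc.image_of_continuousOn hc
  have hn : (γ '' Icc 1 2).Nonempty := ⟨_, 1, ⟨le_rfl, one_le_two⟩, rfl⟩
  have hd : Differentiable ℝ f := fun y => (deriv_f y).differentiableAt
  refine ⟨2, f, γ '' Icc 1 2, hd, strict, hn, hK, fun y => ?_, fun h => ?_⟩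
  · obtain ⟨x, hx, hm⟩ := hK.exists_isMinOn hn (f := fun x => D f x y)
      (Continuous.continuousOn (by
        have := hd.continuous
        unfold D
        fun_prop))
    refine ⟨x, ⟨hx, fun z hz => hm hz⟩, ?_⟩
    obtain ⟨s, hs, rfl⟩ := hx
    rintro _ ⟨⟨t, ht, rfl⟩, h⟩
    have s0 : 0 < s := zero_lt_one.trans_le hs.1
    have t0 : 0 < t := zero_lt_one.trans_le ht.1
    have hm1 : (1 / 2 * s + 1 / 2 * t) ∈ Icc (1 : ℝ) 2 :=
      ⟨by linarith [hs.1, ht.1], by linarith [hs.2, ht.2]⟩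
    have h1 : D f (γ s) y ≤ D f (γ _) y := hm ⟨_, hm1, rfl⟩
    have h2 := h _ ⟨_, hm1, rfl⟩
    have h3 := strictConcaveOn_log_Ioi.concaveOn.2 s0 t0 (show (0 : ℝ) ≤ 1 / 2 by norm_num)
      (show (0 : ℝ) ≤ 1 / 2 by norm_num) (by norm_num)
    simp only [smul_eq_mul] at h3
    rw [D_eq _ (by linarith), D_eq _ (by linarith)] at h1 h2
    have h4 := mul_le_mul_of_nonneg_left h3 (exp_pos (y 1)).le
    have h5 : (t - s) ^ 2 ≤ 0 := by nlinarith
    rw [sub_eq_zero.1 (pow_eq_zero_iff two_ne_zero |>.1 (le_antisymm h5 (sq_nonneg _)))]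
  · obtain ⟨s, -, hs⟩ := h ⟨1, ⟨le_rfl, one_le_two⟩, rfl⟩ ⟨2, ⟨one_le_two, le_rfl⟩, rfl⟩
      (show (0 : ℝ) ≤ 1 / 2 by norm_num) (show (0 : ℝ) ≤ 1 / 2 by norm_num) (by norm_num)
    have h0 : s = 1 / 2 * 1 + 1 / 2 * 2 := by simpa [γ] using congrArg (fun x : E 2 => x 0) hs
    have h1 : log s = 1 / 2 * log 1 + 1 / 2 * log 2 := by
      simpa [γ] using congrArg (fun x : E 2 => x 1) hs
    have h3 := strictConcaveOn_log_Ioi.2 (show (1 : ℝ) ∈ Ioi 0 by norm_num)
      (show (2 : ℝ) ∈ Ioi 0 by norm_num) (by norm_num) (show (0 : ℝ) < 1 / 2 by norm_num)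
      (show (0 : ℝ) < 1 / 2 by norm_num) (by norm_num)
    simp only [smul_eq_mul] at h3
    rw [← h0] at h3
    linarith

end Pool.Agent.Results.MP_bd7f44_an.NonConvex
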